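import Pool.Agent.H49.UDN.EMain

set_option autoImplicit false

/-!
Let `F` be a finite field of characteristic two, `r ≥ 4` even, and `Q` a nondegenerate quadratic
form on a space of dimension `2 r` over `F` (of plus or of minus type). The simple group
`PΩ(Q) = PΩ^±(2r, F)` has uniform domination number at least three; in particular it is not two.

Idea of proof. Let `s, g` be isometries and `s' = g s g⁻¹`; one finds a noncentral `T` in the
commutator subgroup such that `T, s` lie in a proper subgroup and `T, s'` lie in a proper subgroup.
If `s` has an invariant subspace of dimension less than `r`, or a totally singular one, `T` is a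
Siegel transformation. Otherwise `s` is irreducible, or irreducible on both parts of an orthogonal
decomposition `W ⟂ W'` into nondegenerate `r`-spaces. If `r = 2` modulo `4` and we are in the second
case, `s` commutes with an operator of unitary type, and two such operators commute with a
common nontrivial unipotent isometry. In all other cases `s` commutes with an operator `J` of field
type: `J ^ 2 = J + δ` with `X ^ 2 + X + δ` irreducible and `B (J x, x) = 0` for all `x`. The main
step (`key` in `Pool.Agent.H49.UDN.EKey`) says: if `J` is of field type and `a` is of field type
with the same `δ`, or a self-adjoint idempotent, then `J` and `a` commute with a common isometry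
`1 + C ≠ 1` with `C ^ 2 = 0`, or they have a common stable totally singular subspace of dimension
`r`. It is applied to `J, g J g⁻¹` if `s` is irreducible (then `Q` is not split) and to `g J g⁻¹`
and the projection on `W` in the other case (then the restriction of `Q` to `W` is not split).
-/

namespace Pool.Agent.Results.MP_62b3c7_al.EvenCharacteristic

open Pool.Agent.H49.UDN

theorem result (F V : Type) [Field F] [Finite F] [CharP F 2] [AddCommGroup V] [Module F V]
    [FiniteDimensional F V] (Q : QuadraticForm F V)
    (hQ : ∀ x, (∀ y, QuadraticMap.polar Q x y = 0) → x = 0) (r : ℕ) (hr : Even r) (hr' : 4 ≤ r)
    (hV : Module.finrank F V = 2 * r) : 3 ≤ gammaU (POmegaForm Q) :=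
  three_le_gammaU_POmegaForm Q hQ r hr hr' hV

end Pool.Agent.Results.MP_62b3c7_al.EvenCharacteristic
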