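import Pool.Agent.H32.UP.Cls3

set_option autoImplicit false

/-!
For every `r` there is a number `q₀` such that among the groups of rank `r` of the class `C` over
fields with `q ≥ q₀` elements exactly the following have uniform domination number two:
`PSp_{2r}(q)` (`r ≥ 5` odd, `q` odd), `PΩ⁻_{2r}(q)` (`r ≥ 4` even, `q` odd) and `PΩ⁺_{2r}(q)` (`r`
divisible by four, `q` odd). The classification of finite simple groups is not used.

Even `q`, and plus type with `r = 2` modulo `4`: for any two conjugate elements `s`, `s'` there is
`x ≠ 1` such that neither `x, s` nor `x, s'` generate (folder H49/UDN), so the number is at least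
three.

`PSp` and minus type (folder H32/UD). Let `E` be the field with `q ^ (2 r)` elements, `bar` its
automorphism of order two, and let the group be realised on `E` with the form `Tr (δ x bar y)`. Let
`s` generate the squares of the cyclic torus `T = {u | u bar u = 1}`.

(1) Let `s ∈ H ≤ G`. The span `W` of the conjugates `h Lie(T) h⁻¹`, `h ∈ H`, is a Lie algebra, since
the weights of `s` are separated. Either `H` normalises a subfield of `E` of prime degree over `F`,
or `W` is the whole Lie algebra. In the second case a product map `T ^ n → H`,
`t ↦ ∏ h_i t_i h_i⁻¹`, `n = dim G`, has nonzero Jacobian at most points, its fibres are bounded by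
an elementary form of Bezout's theorem, so `|H| ≥ c(r) q ^ n`, `H` has bounded index in `G`, and `H`
contains the commutator subgroup of `G` if `q` is large.

(2) So it is enough to find `g` in the commutator subgroup such that the normaliser of a subfield
`K` and the conjugate by `g` of the normaliser of a subfield `L` have only `± 1` in common, for all
subfields `K`, `L` of prime degree. For `(K, L)` not both of degree two this is a perturbation and
Schwartz-Zippel argument, for degree two the possible values of `J J' + J' J` are counted, where
`J` generates `K` and `J' = g J g⁻¹`.

Plus type, `r = 2 n`, `n` even (folders H32/UP and H42/PL). Now `E` has `q ^ (2 n)` elements,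
`V = E × E` with the form `Tr (x₁ bar y₁) + Tr (x₂ bar y₂)`, and `s` generates the group of all
`(v, v ^ (4 + 2 q))`, `v` a square of an element of norm one. The weights of this one-dimensional
torus (over `E`) are still separated, and as in (1) the overgroups `H` of `s` which do not contain
the commutator subgroup normalise one of the algebras `A = F × F` or
`A = {(k, k ^ (q ^ j)) | k ^ (q ^ p) = k}`, `p` a prime divisor of `2 n`. For (2) let `K` be the
field with `q ^ n` elements; `V` is a quaternion algebra over `K` with the trace of (twice) its norm
form, `g` is, up to a scalar, `y ↦ v y v'` for two pure quaternions `v = n₂ + x (n₁ + t n₃)`,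
`v' = n₂ + x' (n₁ + t n₃)` with `t` fixed. For `x`, `x'` outside of a set of small proportion every
element of the intersection of two normalisers is `K`-linear (a determinant of size eight is not
zero), and if nine expressions in `x` and in `x'` are not squares (character sums) only `± 1` and
`± ω` are left, where `ω` is an involution which does not lie in the commutator subgroup of the
isometry group, because it is an odd permutation of a set of vectors of given norm.
-/

namespace Pool.Agent.Results.MP_62b3c7_al.LargeOrder

open Module QuadraticMap Pool.Agent.H49.UDN Pool.Agent.H32.UD

theorem result (r : ℕ) : ∃ q₀ : ℕ, ∀ (F : Type) [Field F] [Finite F], q₀ ≤ Nat.card F →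
    (5 ≤ r → Odd r → Odd (Nat.card F) → gammaU (PSp F r) = 2) ∧
    (4 ≤ r → Even r → ∀ (V : Type) [AddCommGroup V] [Module F V] [FiniteDimensional F V]
      (Q : QuadraticForm F V), (∀ x, (∀ y, polar Q x y = 0) → x = 0) → finrank F V = 2 * r →
      (gammaU (POmegaForm Q) = 2 ↔
        Odd (Nat.card F) ∧
          ((∀ W : Submodule F V, (∀ x ∈ W, Q x = 0) → finrank F W < r) ∨ 4 ∣ r))) :=
  Pool.Agent.H32.UP.classC r

end Pool.Agent.Results.MP_62b3c7_al.LargeOrder
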