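import Pool.Agent.H49.UDN.Final

set_option autoImplicit false

/-!
For every finite field `F` and every `r` with `r = 2` modulo `4` and `r > 2`, the simple group
`PΩ⁺(2r, F)` has uniform domination number at least three. In particular it is not two.

Idea of proof. Let `s, g` be in `Ω⁺(2r, F)`; one finds a noncentral `T` in the commutator subgroup
such that `T, s` lie in a proper subgroup and `T, g s g⁻¹` lie in a proper subgroup. If `s` has an
invariant subspace of dimension less than `r` or a totally singular one this is done with a Siegel
transformation. The remaining elements `s` preserve an orthogonal decomposition into two
nondegenerate spaces of dimension `r` and are irreducible on both. Since `r / 2` is odd such an `s`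
commutes with an operator `J` of unitary type (`J` generates a quadratic field extension and its
adjoint is its conjugate), and two operators of unitary type `J`, `J' = g J g⁻¹` always commute
with a common nontrivial unipotent element; this is proved by looking at a minimal subspace that is
invariant under both operators.
-/

namespace Pool.Agent.Results.MP_62b3c7_al.PlusTwoModFour

open Pool.Agent.H49.UDN

theorem result (F : Type) [Field F] [Finite F] (r : ℕ) (hr : r % 4 = 2) (hr' : 2 < r) :
    3 ≤ gammaU (POmegaPlus F r) :=
  three_le_gammaU_POmegaPlus F r hr (by omega)

end Pool.Agent.Results.MP_62b3c7_al.PlusTwoModFour
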